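import Pool.Agent.W743.BT.Defs

/-!
# Abstract Marcinkiewicz interpolation, `L¹ → L^∞` and `L² → L²` (part `S_MARC`)
-/

set_option autoImplicit false

open MeasureTheory Set Filter Topology
open scoped ENNReal

namespace Pool.Agent.W108.BT

/-- the truncation level -/
noncomputable def lev (p a s : ℝ) : ℝ := (2 * a / s) ^ (1 / (p - 1))

lemma lev_pos {p a s : ℝ} (ha : 0 < a) (hs : 0 < s) : 0 < lev p a s := by
  unfold lev; positivity

lemma lev_rpow {p a s : ℝ} (hp : 1 < p) (ha : 0 < a) (hs : 0 < s) :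
    lev p a s ^ (p - 1) = 2 * a / s := by
  unfold lev
  rw [← Real.rpow_mul (by positivity), one_div_mul_cancel (by linarith), Real.rpow_one]

lemma inner_le {p a u : ℝ} (hp : 1 < p) (hp2 : p < 2) (ha : 0 < a) (hu : 0 < u) :
    ∫⁻ s in Ioi (0 : ℝ), ({s : ℝ | u ≤ lev p a s}.indicator
      (fun s => ENNReal.ofReal (s ^ (p / (p - 1) - 3))) s) ≤
      ENNReal.ofReal ((2 * a * u ^ (1 - p)) ^ (p / (p - 1) - 2) / (p / (p - 1) - 2)) := by
  have hp1 : 0 < p - 1 := by linarith
  set q := p / (p - 1) with hq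
  have hq2 : 2 < q := by
    rw [hq, lt_div_iff₀ hp1]; linarith
  set s0 := 2 * a * u ^ (1 - p) with hs0
  have hs0p : 0 < s0 := by positivity
  have hsub : ∀ s ∈ Ioi (0 : ℝ), ({s : ℝ | u ≤ lev p a s}.indicator
      (fun s => ENNReal.ofReal (s ^ (q - 3))) s) ≤
      (Ioc 0 s0).indicator (fun s => ENNReal.ofReal (s ^ (q - 3))) s := by
    intro s hs
    have hs' : (0 : ℝ) < s := hs
    by_cases h : u ≤ lev p a s
    · have h1 : s ∈ Ioc 0 s0 := by
        refine ⟨hs, ?_⟩
        have h2 : u ^ (p - 1) ≤ 2 * a / s := by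
          rw [← lev_rpow hp ha hs']
          exact Real.rpow_le_rpow hu.le h hp1.le
        rw [le_div_iff₀ hs'] at h2
        have h3 : u ^ (1 - p) = (u ^ (p - 1))⁻¹ := by
          rw [← Real.rpow_neg hu.le]; congr 1; ring
        rw [hs0, h3, ← div_eq_mul_inv, le_div_iff₀ (by positivity)]
        linarith
      rw [indicator_of_mem (show s ∈ {s : ℝ | u ≤ lev p a s} from h), indicator_of_mem h1]
    · rw [indicator_of_notMem (show s ∉ {s : ℝ | u ≤ lev p a s} from h)]
      exact bot_le
  refine (setLIntegral_mono' measurableSet_Ioi hsub).trans ?_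
  rw [lintegral_indicator measurableSet_Ioc, Measure.restrict_restrict measurableSet_Ioc]
  have hset : Ioc 0 s0 ∩ Ioi 0 = Ioc 0 s0 := by
    ext s
    simp only [mem_inter_iff, mem_Ioc, mem_Ioi]
    tauto
  rw [hset]
  have hint : IntervalIntegrable (fun s : ℝ => s ^ (q - 3)) volume 0 s0 :=
    intervalIntegral.intervalIntegrable_rpow' (by linarith)
  rw [intervalIntegrable_iff_integrableOn_Ioc_of_le hs0p.le] at hint
  rw [← ofReal_integral_eq_lintegral_ofReal hint]
  · apply ENNReal.ofReal_le_ofReal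
    rw [← intervalIntegral.integral_of_le hs0p.le, integral_rpow (Or.inl (by linarith))]
    rw [show q - 3 + 1 = q - 2 by ring, Real.zero_rpow (by linarith), sub_zero]
  · filter_upwards [ae_restrict_mem measurableSet_Ioc] with s hs
    exact Real.rpow_nonneg hs.1.le _

theorem marc : Pool.Agent.W743.BT.S_MARC := by
  intro p hp hp2
  have hp1 : 0 < p - 1 := by linarith
  set q := p / (p - 1) with hq
  have hq2 : 2 < q := by
    rw [hq, lt_div_iff₀ hp1]; linarith
  have hq1 : q - 1 = 1 / (p - 1) := by rw [hq]; field_simp; ring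
  refine ⟨4 * q * 2 ^ (q - 2) / (q - 2), by
    have : 0 < q - 2 := by linarith
    positivity, ?_⟩
  intro X Y _ _ μ ν _ _ f F hf hF H
  set C : ℝ := 4 * q * 2 ^ (q - 2) / (q - 2) with hC
  have hq20 : 0 < q - 2 := by linarith
  have hCpos : 0 < C := by positivity
  rcases eq_or_ne (∫⁻ x, f x ^ p ∂μ) ⊤ with hatop | hatop
  · rw [hatop, ENNReal.top_rpow_of_pos (by positivity), ENNReal.mul_top (by simpa using hCpos)]
    exact le_top
  rcases eq_or_ne (∫⁻ x, f x ^ p ∂μ) 0 with ha0 | ha0
  · have hf0 : ∀ᵐ x ∂μ, f x = 0 := by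
      rw [lintegral_eq_zero_iff (hf.pow_const p)] at ha0
      filter_upwards [ha0] with x hx
      have : f x ^ p = 0 := hx
      rw [ENNReal.rpow_eq_zero_iff] at this
      rcases this with h | h
      · exact h.1
      · linarith [h.2]
    obtain ⟨v, hv, h1, h2⟩ := H 1 one_pos ENNReal.one_ne_top
    have h3 : ∫⁻ x in {x | 1 < f x}, f x ∂μ = 0 := by
      rw [lintegral_eq_zero_iff hf]
      exact ae_restrict_of_ae hf0
    have h4 : ∫⁻ x in {x | f x ≤ 1}, f x ^ 2 ∂μ = 0 := by
      rw [lintegral_eq_zero_iff (hf.pow_const 2)]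
      refine ae_restrict_of_ae ?_
      filter_upwards [hf0] with x hx
      simp [hx]
    rw [h4, nonpos_iff_eq_zero, lintegral_eq_zero_iff (hv.pow_const 2)] at h2
    have h5 : ∫⁻ y, F y ^ q ∂ν = 0 := by
      rw [lintegral_eq_zero_iff (hF.pow_const q)]
      filter_upwards [h1, h2] with y hy hy2
      have h6 : v y ^ 2 = 0 := hy2
      have h7 : v y = 0 := by simpa using h6
      rw [h3, h7, zero_add] at hy
      have h8 : F y = 0 := nonpos_iff_eq_zero.1 hy
      change F y ^ q = 0
      rw [h8, ENNReal.zero_rpow_of_pos (by linarith)]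
    rw [h5]
    exact bot_le
  -- the main case
  set a : ℝ := (∫⁻ x, f x ^ p ∂μ).toReal with ha
  have hapos : 0 < a := ENNReal.toReal_pos ha0 hatop
  have haof : ∫⁻ x, f x ^ p ∂μ = ENNReal.ofReal a := (ENNReal.ofReal_toReal hatop).symm
  have key : ∀ s : ℝ, 0 < s → ν {y | ENNReal.ofReal s < F y} ≤
      ENNReal.ofReal (4 * s ^ (-(2 : ℝ))) *
        ∫⁻ x in {x | f x ≤ ENNReal.ofReal (lev p a s)}, f x ^ 2 ∂μ := by
    intro s hs
    have hl := lev_pos (p := p) hapos hs
    obtain ⟨v, hv, h1, h2⟩ := H (ENNReal.ofReal (lev p a s)) (by simpa using hl)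
      ENNReal.ofReal_ne_top
    have h3 : ∫⁻ x in {x | ENNReal.ofReal (lev p a s) < f x}, f x ∂μ ≤ ENNReal.ofReal (s / 2) := by
      have h4 : ∀ x ∈ {x | ENNReal.ofReal (lev p a s) < f x},
          f x ≤ ENNReal.ofReal (s / (2 * a)) * f x ^ p := by
        intro x hx
        have hx' : ENNReal.ofReal (lev p a s) < f x := hx
        have h5 : ENNReal.ofReal (2 * a / s) ≤ f x ^ (p - 1) := by
          rw [← lev_rpow hp hapos hs, ← ENNReal.ofReal_rpow_of_pos hl]
          exact ENNReal.rpow_le_rpow hx'.le hp1.le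
        have h6 : f x ^ p = f x ^ (p - 1) * f x := by
          have h7 := ENNReal.rpow_add_of_nonneg (x := f x) (p - 1) 1 hp1.le zero_le_one
          rw [ENNReal.rpow_one, sub_add_cancel] at h7
          exact h7
        have h8 : ENNReal.ofReal (s / (2 * a)) * ENNReal.ofReal (2 * a / s) = 1 := by
          rw [← ENNReal.ofReal_mul (by positivity)]
          rw [show s / (2 * a) * (2 * a / s) = 1 by field_simp]
          exact ENNReal.ofReal_one
        calc f x = ENNReal.ofReal (s / (2 * a)) * ENNReal.ofReal (2 * a / s) * f x := by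
              rw [h8, one_mul]
          _ ≤ ENNReal.ofReal (s / (2 * a)) * f x ^ (p - 1) * f x := by gcongr
          _ = ENNReal.ofReal (s / (2 * a)) * f x ^ p := by rw [h6, mul_assoc]
      calc ∫⁻ x in {x | ENNReal.ofReal (lev p a s) < f x}, f x ∂μ
          ≤ ∫⁻ x in {x | ENNReal.ofReal (lev p a s) < f x},
              ENNReal.ofReal (s / (2 * a)) * f x ^ p ∂μ :=
            setLIntegral_mono' (measurableSet_lt measurable_const hf) h4
        _ ≤ ∫⁻ x, ENNReal.ofReal (s / (2 * a)) * f x ^ p ∂μ := setLIntegral_le_lintegral _ _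
        _ = ENNReal.ofReal (s / (2 * a)) * ENNReal.ofReal a := by
            rw [lintegral_const_mul _ (hf.pow_const p), haof]
        _ = ENNReal.ofReal (s / 2) := by
            rw [← ENNReal.ofReal_mul (by positivity)]
            congr 1
            field_simp
    have h9 : ν {y | ENNReal.ofReal s < F y} ≤ ν {y | ENNReal.ofReal (s / 2) ^ 2 ≤ v y ^ 2} := by
      refine measure_mono_ae ?_
      filter_upwards [h1] with y hy hy2
      have hy3 : ENNReal.ofReal s < F y := hy2
      have hy4 : ENNReal.ofReal (s / 2) ≤ v y := by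
        by_contra hcon
        push Not at hcon
        have h10 : F y ≤ ENNReal.ofReal (s / 2) + ENNReal.ofReal (s / 2) :=
          hy.trans (add_le_add h3 hcon.le)
        rw [← ENNReal.ofReal_add (by positivity) (by positivity), add_halves] at h10
        exact absurd hy3 (not_lt.2 h10)
      exact pow_le_pow_left' hy4 2
    have h11 : ν {y | ENNReal.ofReal (s / 2) ^ 2 ≤ v y ^ 2} ≤
        (∫⁻ y, v y ^ 2 ∂ν) / ENNReal.ofReal (s / 2) ^ 2 := by
      refine meas_ge_le_lintegral_div (hv.pow_const 2).aemeasurable ?_ ?_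
      · have : 0 < ENNReal.ofReal (s / 2) := by
          rw [ENNReal.ofReal_pos]; positivity
        exact pow_ne_zero 2 this.ne'
      · exact ENNReal.pow_ne_top ENNReal.ofReal_ne_top
    refine h9.trans (h11.trans ?_)
    rw [ENNReal.div_eq_inv_mul]
    have h12 : (ENNReal.ofReal (s / 2) ^ 2)⁻¹ = ENNReal.ofReal (4 * s ^ (-(2 : ℝ))) := by
      rw [← ENNReal.ofReal_pow (by positivity), ← ENNReal.ofReal_inv_of_pos (by positivity)]
      congr 1
      rw [Real.rpow_neg hs.le, show ((2 : ℝ)) = ((2 : ℕ) : ℝ) by norm_num, Real.rpow_natCast]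
      push_cast
      field_simp
      norm_num
    rw [h12]
    gcongr
  -- `F` is finite almost everywhere
  have hfin : ∀ᵐ y ∂ν, F y ≠ ⊤ := by
    have h1 : ∀ s : ℝ, 0 < s → ν {y | F y = ⊤} ≤
        ENNReal.ofReal (4 * s ^ (-(2 : ℝ)) * (lev p a s ^ (2 - p) * a)) := by
      intro s hs
      have hl := lev_pos (p := p) hapos hs
      have h2 : ν {y | F y = ⊤} ≤ ν {y | ENNReal.ofReal s < F y} := by
        refine measure_mono fun y hy => ?_
        have hy' : F y = ⊤ := hy
        change ENNReal.ofReal s < F y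
        rw [hy']
        exact ENNReal.ofReal_lt_top
      refine h2.trans ((key s hs).trans ?_)
      rw [ENNReal.ofReal_mul (p := 4 * s ^ (-(2 : ℝ))) (by positivity)]
      gcongr
      have h3 : ∀ x ∈ {x | f x ≤ ENNReal.ofReal (lev p a s)}, f x ^ 2 ≤
          ENNReal.ofReal (lev p a s ^ (2 - p)) * f x ^ p := by
        intro x hx
        have hx' : f x ≤ ENNReal.ofReal (lev p a s) := hx
        have h4 := ENNReal.rpow_add_of_nonneg (x := f x) (2 - p) p (by linarith) (by linarith)
        rw [sub_add_cancel] at h4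
        have h5 : f x ^ (2 : ℕ) = f x ^ (2 : ℝ) := by
          rw [← ENNReal.rpow_natCast]; norm_num
        rw [h5, h4, ← ENNReal.ofReal_rpow_of_pos hl]
        gcongr
      calc ∫⁻ x in {x | f x ≤ ENNReal.ofReal (lev p a s)}, f x ^ 2 ∂μ
          ≤ ∫⁻ x in {x | f x ≤ ENNReal.ofReal (lev p a s)},
              ENNReal.ofReal (lev p a s ^ (2 - p)) * f x ^ p ∂μ :=
            setLIntegral_mono' (measurableSet_le hf measurable_const) h3
        _ ≤ ∫⁻ x, ENNReal.ofReal (lev p a s ^ (2 - p)) * f x ^ p ∂μ :=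
            setLIntegral_le_lintegral _ _
        _ = ENNReal.ofReal (lev p a s ^ (2 - p) * a) := by
            rw [lintegral_const_mul _ (hf.pow_const p), haof, ← ENNReal.ofReal_mul (by positivity)]
    have h2 : Tendsto (fun s : ℝ => 4 * s ^ (-(2 : ℝ)) * (lev p a s ^ (2 - p) * a)) atTop (𝓝 0) := by
      have h3 : Tendsto (fun s : ℝ => s ^ (-(2 : ℝ))) atTop (𝓝 0) :=
        tendsto_rpow_neg_atTop (by norm_num)
      have h4 : Tendsto (fun s : ℝ => 2 * a / s) atTop (𝓝 0) :=
        Tendsto.div_atTop tendsto_const_nhds tendsto_id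
      have h5 : Tendsto (fun s : ℝ => lev p a s) atTop (𝓝 0) := by
        have h6 := h4.rpow_const (p := 1 / (p - 1)) (Or.inr (by positivity))
        rw [Real.zero_rpow (by positivity)] at h6
        exact h6
      have h7 : Tendsto (fun s : ℝ => lev p a s ^ (2 - p)) atTop (𝓝 0) := by
        have h6 := h5.rpow_const (p := 2 - p) (Or.inr (by linarith))
        rw [Real.zero_rpow (by linarith)] at h6
        exact h6
      have h8 := (h3.const_mul 4).mul (h7.mul_const a)
      simpa using h8
    have h3 : ν {y | F y = ⊤} = 0 := by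
      have h4 : Tendsto (fun s : ℝ => ENNReal.ofReal (4 * s ^ (-(2 : ℝ)) * (lev p a s ^ (2 - p) * a)))
          atTop (𝓝 0) := by
        have := ENNReal.tendsto_ofReal h2
        rwa [ENNReal.ofReal_zero] at this
      refine nonpos_iff_eq_zero.1 (ge_of_tendsto h4 ?_)
      filter_upwards [eventually_gt_atTop (0 : ℝ)] with s hs
      exact h1 s hs
    rw [ae_iff]
    simpa using h3
  -- layer cake
  have hG : ∫⁻ y, F y ^ q ∂ν = ∫⁻ y, ENNReal.ofReal ((F y).toReal ^ q) ∂ν := by
    refine lintegral_congr_ae ?_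
    filter_upwards [hfin] with y hy
    rw [ENNReal.toReal_rpow, ENNReal.ofReal_toReal]
    exact ENNReal.rpow_ne_top_of_nonneg (by linarith) hy
  rw [hG, lintegral_rpow_eq_lintegral_meas_lt_mul ν
    (Eventually.of_forall fun y => ENNReal.toReal_nonneg) hF.ennreal_toReal.aemeasurable
    (by linarith : 0 < q)]
  have hstep : ∀ s ∈ Ioi (0 : ℝ), ν {y | s < (F y).toReal} * ENNReal.ofReal (s ^ (q - 1)) ≤
      4 * ∫⁻ x, ({s : ℝ | f x ≤ ENNReal.ofReal (lev p a s)}.indicator
        (fun s => ENNReal.ofReal (s ^ (q - 3))) s) * f x ^ 2 ∂μ := by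
    intro s hs
    have hs' : (0 : ℝ) < s := hs
    have h1 : ν {y | s < (F y).toReal} ≤ ν {y | ENNReal.ofReal s < F y} := by
      refine measure_mono fun y hy => ?_
      have hy' : s < (F y).toReal := hy
      change ENNReal.ofReal s < F y
      have hne : F y ≠ ⊤ := by
        intro h
        rw [h, ENNReal.toReal_top] at hy'
        linarith
      rw [← ENNReal.ofReal_toReal hne]
      exact (ENNReal.ofReal_lt_ofReal_iff (by linarith)).2 hy'
    calc ν {y | s < (F y).toReal} * ENNReal.ofReal (s ^ (q - 1))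
        ≤ (ENNReal.ofReal (4 * s ^ (-(2 : ℝ))) *
            ∫⁻ x in {x | f x ≤ ENNReal.ofReal (lev p a s)}, f x ^ 2 ∂μ) *
              ENNReal.ofReal (s ^ (q - 1)) := by
          gcongr
          exact h1.trans (key s hs')
      _ = 4 * (ENNReal.ofReal (s ^ (q - 3)) *
            ∫⁻ x in {x | f x ≤ ENNReal.ofReal (lev p a s)}, f x ^ 2 ∂μ) := by
          rw [mul_right_comm, ← ENNReal.ofReal_mul (by positivity)]
          have h2 : 4 * s ^ (-(2 : ℝ)) * s ^ (q - 1) = 4 * s ^ (q - 3) := by
            rw [mul_assoc, ← Real.rpow_add hs']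
            congr 2
            ring
          rw [h2, ENNReal.ofReal_mul (by norm_num), mul_assoc]
          norm_num
      _ = 4 * ∫⁻ x, ({s : ℝ | f x ≤ ENNReal.ofReal (lev p a s)}.indicator
            (fun s => ENNReal.ofReal (s ^ (q - 3))) s) * f x ^ 2 ∂μ := by
          congr 1
          rw [← lintegral_const_mul _ (hf.pow_const 2),
            ← lintegral_indicator (measurableSet_le hf measurable_const)]
          refine lintegral_congr fun x => ?_
          by_cases h : f x ≤ ENNReal.ofReal (lev p a s)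
          · rw [indicator_of_mem (show x ∈ {x | f x ≤ ENNReal.ofReal (lev p a s)} from h),
              indicator_of_mem (show s ∈ {s : ℝ | f x ≤ ENNReal.ofReal (lev p a s)} from h)]
          · rw [indicator_of_notMem (show x ∉ {x | f x ≤ ENNReal.ofReal (lev p a s)} from h),
              indicator_of_notMem (show s ∉ {s : ℝ | f x ≤ ENNReal.ofReal (lev p a s)} from h),
              zero_mul]
  have hlevm : Measurable (fun s : ℝ => lev p a s) := by
    unfold lev
    exact (measurable_const.div measurable_id).pow_const _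
  have hjoint : Measurable (Function.uncurry fun (s : ℝ) (x : X) =>
      ({s : ℝ | f x ≤ ENNReal.ofReal (lev p a s)}.indicator
        (fun s => ENNReal.ofReal (s ^ (q - 3))) s) * f x ^ 2) := by
    have h1 : MeasurableSet {w : ℝ × X | f w.2 ≤ ENNReal.ofReal (lev p a w.1)} :=
      measurableSet_le (hf.comp measurable_snd)
        (ENNReal.measurable_ofReal.comp (hlevm.comp measurable_fst))
    have h2 : Measurable (fun w : ℝ × X => ENNReal.ofReal (w.1 ^ (q - 3))) :=
      ENNReal.measurable_ofReal.comp (measurable_fst.pow_const _)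
    have h3 := (h2.indicator h1).mul ((hf.comp measurable_snd).pow_const 2)
    exact h3
  have hpt : ∀ x, (∫⁻ s in Ioi (0 : ℝ), ({s : ℝ | f x ≤ ENNReal.ofReal (lev p a s)}.indicator
      (fun s => ENNReal.ofReal (s ^ (q - 3))) s) * f x ^ 2) ≤
      ENNReal.ofReal ((2 * a) ^ (q - 2) / (q - 2)) * f x ^ p := by
    intro x
    rcases eq_or_ne (f x) 0 with h0 | h0
    · rw [h0]
      simp
    rcases eq_or_ne (f x) ⊤ with htop | htop
    · rw [htop, ENNReal.top_rpow_of_pos (by linarith), ENNReal.mul_top]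
      · exact le_top
      · have : 0 < (2 * a) ^ (q - 2) / (q - 2) := by positivity
        simpa using this
    set u := (f x).toReal with hu
    have hupos : 0 < u := ENNReal.toReal_pos h0 htop
    have hfx : f x = ENNReal.ofReal u := (ENNReal.ofReal_toReal htop).symm
    rw [lintegral_mul_const']
    · have h1 : ∀ s ∈ Ioi (0 : ℝ), {s : ℝ | f x ≤ ENNReal.ofReal (lev p a s)}.indicator
          (fun s => ENNReal.ofReal (s ^ (q - 3))) s =
          {s : ℝ | u ≤ lev p a s}.indicator (fun s => ENNReal.ofReal (s ^ (q - 3))) s := by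
        intro s hs
        have hl := lev_pos (p := p) hapos hs
        have h2 : (f x ≤ ENNReal.ofReal (lev p a s)) ↔ u ≤ lev p a s := by
          rw [hfx, ENNReal.ofReal_le_ofReal_iff hl.le]
        by_cases h : u ≤ lev p a s
        · rw [indicator_of_mem (show s ∈ {s : ℝ | u ≤ lev p a s} from h),
            indicator_of_mem (show s ∈ {s : ℝ | f x ≤ ENNReal.ofReal (lev p a s)} from h2.2 h)]
        · rw [indicator_of_notMem (show s ∉ {s : ℝ | u ≤ lev p a s} from h),
            indicator_of_notMem (show s ∉ {s : ℝ | f x ≤ ENNReal.ofReal (lev p a s)} from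
              fun h' => h (h2.1 h'))]
      rw [setLIntegral_congr_fun measurableSet_Ioi h1]
      have h3 := inner_le hp hp2 hapos hupos
      rw [← hq] at h3
      calc (∫⁻ s in Ioi (0 : ℝ), {s : ℝ | u ≤ lev p a s}.indicator
            (fun s => ENNReal.ofReal (s ^ (q - 3))) s) * f x ^ 2
          ≤ ENNReal.ofReal ((2 * a * u ^ (1 - p)) ^ (q - 2) / (q - 2)) * f x ^ 2 := by gcongr
        _ = ENNReal.ofReal ((2 * a) ^ (q - 2) / (q - 2)) * f x ^ p := by
            rw [hfx, ENNReal.ofReal_rpow_of_pos hupos, ← ENNReal.ofReal_pow hupos.le,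
              ← ENNReal.ofReal_mul (by positivity), ← ENNReal.ofReal_mul (by positivity)]
            congr 1
            rw [Real.mul_rpow (by positivity) (by positivity), ← Real.rpow_mul hupos.le]
            have h4 : (1 - p) * (q - 2) = p - 2 := by
              rw [hq]; field_simp; ring
            have h5 : u ^ p = u ^ (p - 2) * u ^ 2 := by
              rw [← Real.rpow_natCast, ← Real.rpow_add hupos]
              congr 1
              push_cast
              ring
            rw [h4, h5]
            ring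
    · exact ENNReal.pow_ne_top htop
  calc ENNReal.ofReal q * ∫⁻ s in Ioi (0 : ℝ), ν {y | s < (F y).toReal} *
        ENNReal.ofReal (s ^ (q - 1))
      ≤ ENNReal.ofReal q * ∫⁻ s in Ioi (0 : ℝ), 4 *
          ∫⁻ x, ({s : ℝ | f x ≤ ENNReal.ofReal (lev p a s)}.indicator
            (fun s => ENNReal.ofReal (s ^ (q - 3))) s) * f x ^ 2 ∂μ := by
        gcongr ENNReal.ofReal q * ?_
        exact setLIntegral_mono' measurableSet_Ioi hstep
    _ = ENNReal.ofReal q * (4 * ∫⁻ s in Ioi (0 : ℝ),
          ∫⁻ x, ({s : ℝ | f x ≤ ENNReal.ofReal (lev p a s)}.indicator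
            (fun s => ENNReal.ofReal (s ^ (q - 3))) s) * f x ^ 2 ∂μ) := by
        rw [lintegral_const_mul' _ _ (by norm_num)]
    _ = ENNReal.ofReal q * (4 * ∫⁻ x, (∫⁻ s in Ioi (0 : ℝ),
          ({s : ℝ | f x ≤ ENNReal.ofReal (lev p a s)}.indicator
            (fun s => ENNReal.ofReal (s ^ (q - 3))) s) * f x ^ 2) ∂μ) := by
        rw [lintegral_lintegral_swap hjoint.aemeasurable]
    _ ≤ ENNReal.ofReal q * (4 * ∫⁻ x, ENNReal.ofReal ((2 * a) ^ (q - 2) / (q - 2)) * f x ^ p ∂μ) := by
        gcongr
        exact hpt _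
    _ = ENNReal.ofReal C * (∫⁻ x, f x ^ p ∂μ) ^ (1 / (p - 1)) := by
        rw [lintegral_const_mul _ (hf.pow_const p), haof, ENNReal.ofReal_rpow_of_pos hapos,
          ← ENNReal.ofReal_mul (by positivity), ← ENNReal.ofReal_mul (by positivity)]
        have h4 : (4 : ℝ≥0∞) = ENNReal.ofReal 4 := by norm_num
        rw [h4, ← ENNReal.ofReal_mul (by positivity), ← ENNReal.ofReal_mul (by positivity)]
        congr 1
        rw [hC, ← hq1, Real.mul_rpow (by positivity) hapos.le]
        have h5 : a ^ (q - 1) = a ^ (q - 2) * a := by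
          rw [← Real.rpow_add_one hapos.ne']
          congr 1
          ring
        rw [h5]
        field_simp

end Pool.Agent.W108.BT
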